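import Pool.Agent.Lib_MP_8d0ff6_al.Comb

namespace Pool.Agent.Lib_MP_8d0ff6_al

open Equiv Set

variable {Ω : Type*} [DecidableEq Ω]

/-- `t` is a 3-cycle with all three points in `S`. -/
def IsCyc (S : Set Ω) (t : Perm Ω) : Prop :=
  ∃ a b c, a ∈ S ∧ b ∈ S ∧ c ∈ S ∧ a ≠ b ∧ b ≠ c ∧ a ≠ c ∧ t = swap a b * swap b c

/-- `t` is a transposition with both points in `S`. -/
def IsSw (S : Set Ω) (t : Perm Ω) : Prop :=
  ∃ a b, a ∈ S ∧ b ∈ S ∧ a ≠ b ∧ t = swap a b

lemma two_swaps {S : Set Ω} {t t' : Perm Ω} (h : IsSw S t) (h' : IsSw S t') :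
    ∃ l : List (Perm Ω), (∀ u ∈ l, IsCyc S u) ∧ l.prod = t * t' := by
  obtain ⟨a, b, ha, hb, hab, rfl⟩ := h
  obtain ⟨c, d, hc, hd, hcd, rfl⟩ := h'
  have sq : ∀ x y : Ω, swap x y * swap x y = 1 := fun x y => swap_mul_self x y
  by_cases hac : a = c
  · subst hac
    by_cases hbd : b = d
    · subst hbd
      exact ⟨[], by simp, by simp⟩
    · refine ⟨[swap b a * swap a d], ?_, by simp [swap_comm b a]⟩
      intro u hu
      simp only [List.mem_singleton] at hu
      exact ⟨b, a, d, hb, ha, hd, hab.symm, hcd, hbd, hu⟩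
  · by_cases hbc : b = c
    · subst hbc
      by_cases had : a = d
      · subst had
        exact ⟨[], by simp, by simp [swap_comm b a]⟩
      · refine ⟨[swap a b * swap b d], ?_, by simp⟩
        intro u hu
        simp only [List.mem_singleton] at hu
        exact ⟨a, b, d, ha, hb, hd, hab, hcd, had, hu⟩
    · by_cases had : a = d
      · subst had
        refine ⟨[swap b a * swap a c], ?_, by simp [swap_comm b a, swap_comm a c]⟩
        intro u hu
        simp only [List.mem_singleton] at hu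
        exact ⟨b, a, c, hb, ha, hc, hab.symm, hac, hbc, hu⟩
      · by_cases hbd : b = d
        · subst hbd
          refine ⟨[swap a b * swap b c], ?_, by simp [swap_comm b c]⟩
          intro u hu
          simp only [List.mem_singleton] at hu
          exact ⟨a, b, c, ha, hb, hc, hab, hbc, hac, hu⟩
        · refine ⟨[swap a b * swap b c, swap b c * swap c d], ?_, ?_⟩
          · intro u hu
            simp only [List.mem_cons, List.not_mem_nil, or_false] at hu
            rcases hu with hu | hu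
            · exact ⟨a, b, c, ha, hb, hc, hab, hbc, hac, hu⟩
            · exact ⟨b, c, d, hb, hc, hd, hbc, hcd, hbd, hu⟩
          · simp only [List.prod_cons, List.prod_nil, mul_one]
            rw [mul_assoc, ← mul_assoc (swap b c) (swap b c), sq, one_mul]

/-- An even-length product of transpositions in `S` is a product of 3-cycles in `S`. -/
lemma even_swaps {S : Set Ω} : ∀ (n : ℕ) (l : List (Perm Ω)), l.length = n + n →
    (∀ t ∈ l, IsSw S t) → ∃ l' : List (Perm Ω), (∀ u ∈ l', IsCyc S u) ∧ l'.prod = l.prod := by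
  intro n
  induction n with
  | zero =>
    intro l hl _
    have : l = [] := List.length_eq_zero_iff.1 (by simpa using hl)
    subst this
    exact ⟨[], by simp, by simp⟩
  | succ n ih =>
    intro l hl h
    match l, hl, h with
    | t :: t' :: l, hl, h =>
      obtain ⟨l1, h1, h2⟩ := ih l (by simp at hl; omega) (fun x hx => h x (by simp [hx]))
      obtain ⟨l2, h3, h4⟩ := two_swaps (h t (by simp)) (h t' (by simp))
      refine ⟨l2 ++ l1, ?_, ?_⟩
      · intro u hu
        rcases List.mem_append.1 hu with hu | hu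
        · exact h3 u hu
        · exact h1 u hu
      · rw [List.prod_append, h4, h2]
        simp [mul_assoc]
    | [t], hl, _ => simp at hl; omega
    | [], hl, _ => simp at hl

lemma exists_finset_entries : ∀ (l : List (Perm Ω)), (∀ t ∈ l, t.IsSwap) →
    ∃ s : Finset Ω, ∀ t ∈ l, IsSw (s : Set Ω) t := by
  intro l
  induction l with
  | nil => intro _; exact ⟨∅, by simp⟩
  | cons t l ih =>
    intro h
    obtain ⟨s, hs⟩ := ih (fun x hx => h x (by simp [hx]))
    obtain ⟨x, y, hxy, hx⟩ := h t (by simp)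
    refine ⟨insert x (insert y s), ?_⟩
    intro u hu
    rcases List.mem_cons.1 hu with hu | hu
    · subst hu
      exact ⟨x, y, by simp, by simp, hxy, hx⟩
    · obtain ⟨a, b, ha, hb, hab, h⟩ := hs u hu
      exact ⟨a, b, by simp_all, by simp_all, hab, h⟩

lemma exists_restrict (s : Finset Ω) : ∀ (l : List (Perm Ω)), (∀ t ∈ l, IsSw (s : Set Ω) t) →
    ∃ l' : List (Perm s), (∀ t ∈ l', t.IsSwap) ∧ l'.length = l.length ∧
      Perm.ofSubtype l'.prod = l.prod := by
  intro l
  induction l with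
  | nil => intro _; exact ⟨[], by simp, by simp, by simp⟩
  | cons t l ih =>
    intro h
    obtain ⟨l', h1, h2, h3⟩ := ih (fun x hx => h x (by simp [hx]))
    obtain ⟨a, b, ha, hb, hab, hab'⟩ := h t (by simp)
    refine ⟨swap ⟨a, ha⟩ ⟨b, hb⟩ :: l', ?_, by simp [h2], ?_⟩
    · intro u hu
      rcases List.mem_cons.1 hu with hu | hu
      · exact ⟨⟨a, ha⟩, ⟨b, hb⟩, by simpa using hab, hu⟩
      · exact h1 u hu
    · rw [List.prod_cons, List.prod_cons, map_mul, h3, hab']
      congr 1
      exact Perm.ofSubtype_swap_eq (p := fun x => x ∈ s) ⟨a, ha⟩ ⟨b, hb⟩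

/-- A product of an even number of transpositions which fixes `F` pointwise is a product of
3-cycles with entries outside `F`. -/
lemma alt_factor (F : Set Ω) (l0 : List (Perm Ω)) (hl0 : ∀ t ∈ l0, t.IsSwap)
    (heven : Even l0.length) (hw : SuppIn Fᶜ l0.prod) :
    ∃ l : List (Perm Ω), (∀ t ∈ l, IsCyc Fᶜ t) ∧ l.prod = l0.prod := by
  classical
  obtain ⟨s, hs⟩ := exists_finset_entries l0 hl0
  obtain ⟨l1, h1, h2, h3⟩ := exists_restrict s l0 hs
  set w := l0.prod with hwdef
  set w1 : Perm s := l1.prod with hw1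
  have hval : ∀ x : s, ((w1 x : s) : Ω) = w x := by
    intro x
    rw [← h3]
    exact (Perm.ofSubtype_apply_coe (p := fun x => x ∈ s) w1 x).symm
  have hsign1 : Perm.sign w1 = 1 := by
    rw [hw1, Perm.sign_prod_list_swap h1, h2]
    exact heven.neg_one_pow
  let p : s → Prop := fun x => (x : Ω) ∉ F
  have hp1 : ∀ x, p (w1 x) ↔ p x := by
    intro x
    simp only [p]
    rw [hval]
    exact hw.mem_iff
  have hp2 : ∀ x, w1 x ≠ x → p x := by
    intro x hx hxF
    apply hx
    apply Subtype.ext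
    rw [hval]
    exact hw _ (by simpa using hxF)
  let w2 : Perm (Subtype p) := w1.subtypePerm hp1
  have hsign2 : Perm.sign w2 = 1 := by
    rw [Perm.sign_subtypePerm w1 hp1 hp2, hsign1]
  obtain ⟨l2, hl2, hl2'⟩ := (Perm.truncSwapFactors w2).out
  have hlen : Even l2.length := by
    have := Perm.sign_prod_list_swap hl2'
    rw [hl2, hsign2] at this
    exact (neg_one_pow_eq_one_iff_even (by decide)).1 this.symm
  have hw2 : Perm.ofSubtype (Perm.ofSubtype w2) = w := by
    rw [← h3]
    congr 1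
    exact Perm.ofSubtype_subtypePerm hp1 hp2
  obtain ⟨n, hn⟩ := hlen
  obtain ⟨l', hl', hl'p⟩ := even_swaps (S := Fᶜ) n
    (l2.map fun t => Perm.ofSubtype (p := fun x => x ∈ s) (Perm.ofSubtype t)) (by simpa using hn) (by
      intro t ht
      obtain ⟨t0, ht0, rfl⟩ := List.mem_map.1 ht
      obtain ⟨x, y, hxy, h⟩ := hl2' t0 ht0
      refine ⟨((x : s) : Ω), ((y : s) : Ω), x.2, y.2, ?_, ?_⟩
      · intro h
        exact hxy (Subtype.ext (Subtype.ext h))
      · rw [h, Perm.ofSubtype_swap_eq]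
        exact Perm.ofSubtype_swap_eq (p := fun x => x ∈ s) x.1 y.1)
  refine ⟨l', hl', ?_⟩
  rw [hl'p, ← hw2, ← hl2]
  exact List.prod_hom l2
    ((Perm.ofSubtype (p := fun x => x ∈ s)).comp (Perm.ofSubtype (p := p)))

lemma IsCyc.conj {S T : Set Ω} {t : Perm Ω} (h : IsCyc S t) (g : Perm Ω)
    (hg : ∀ x ∈ S, g x ∈ T) : IsCyc T (g * t * g⁻¹) := by
  obtain ⟨a, b, c, ha, hb, hc, hab, hbc, hac, rfl⟩ := h
  refine ⟨g a, g b, g c, hg a ha, hg b hb, hg c hc, g.injective.ne hab, g.injective.ne hbc,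
    g.injective.ne hac, ?_⟩
  have h1 : g * swap a b * g⁻¹ = swap (g a) (g b) := by
    rw [Equiv.mul_swap_eq_swap_mul, mul_inv_cancel_right]
  have h2 : g * swap b c * g⁻¹ = swap (g b) (g c) := by
    rw [Equiv.mul_swap_eq_swap_mul, mul_inv_cancel_right]
  rw [← h1, ← h2]
  group

lemma exists_finite_entries {S : Set Ω} : ∀ (l : List (Perm Ω)), (∀ t ∈ l, IsCyc S t) →
    ∃ Y : Set Ω, Y.Finite ∧ Y ⊆ S ∧ ∀ t ∈ l, IsCyc Y t := by
  intro l
  induction l with
  | nil => intro _; exact ⟨∅, by simp, by simp, by simp⟩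
  | cons t l ih =>
    intro h
    obtain ⟨Y, hY, hYS, hYl⟩ := ih (fun x hx => h x (by simp [hx]))
    obtain ⟨a, b, c, ha, hb, hc, hab, hbc, hac, rfl⟩ := h t (by simp)
    refine ⟨{a, b, c} ∪ Y, (Set.toFinite _).union hY, ?_, ?_⟩
    · intro x hx
      rcases hx with hx | hx
      · simp only [mem_insert_iff, mem_singleton_iff] at hx
        rcases hx with rfl | rfl | rfl <;> assumption
      · exact hYS hx
    · intro u hu
      rcases List.mem_cons.1 hu with hu | hu
      · exact ⟨a, b, c, by simp, by simp, by simp, hab, hbc, hac, hu⟩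
      · obtain ⟨a', b', c', ha', hb', hc', h1, h2, h3, h4⟩ := hYl u hu
        exact ⟨a', b', c', Or.inr ha', Or.inr hb', Or.inr hc', h1, h2, h3, h4⟩

end Pool.Agent.Lib_MP_8d0ff6_al
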