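import Mathlib

/-!
Combinatorial lemmas on permutations of a countably infinite set, used for `MP_8d0ff6_al`.
-/

namespace Pool.Agent.Lib_MP_8d0ff6_al

open Equiv Set

variable {Ω : Type*}

lemma inv_app (g : Perm Ω) (x : Ω) : g⁻¹ (g x) = x := g.symm_apply_apply x

lemma app_inv (g : Perm Ω) (x : Ω) : g (g⁻¹ x) = x := g.apply_symm_apply x

/-- `g` is supported in `S`: it fixes every point outside `S`. -/
def SuppIn (S : Set Ω) (g : Perm Ω) : Prop := ∀ x, x ∉ S → g x = x

lemma SuppIn.mono {S T : Set Ω} {g : Perm Ω} (h : SuppIn S g) (hST : S ⊆ T) : SuppIn T g :=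
  fun x hx => h x fun hx' => hx (hST hx')

lemma SuppIn.mem {S : Set Ω} {g : Perm Ω} (h : SuppIn S g) {x : Ω} (hx : x ∈ S) : g x ∈ S := by
  by_contra hc
  have := h _ hc
  rw [g.injective this] at hc
  exact hc hx

lemma SuppIn.one (S : Set Ω) : SuppIn S (1 : Perm Ω) := fun _ _ => rfl

lemma SuppIn.inv {S : Set Ω} {g : Perm Ω} (h : SuppIn S g) : SuppIn S g⁻¹ := by
  intro x hx
  rw [Perm.inv_eq_iff_eq]
  exact (h x hx).symm

lemma SuppIn.mul {S : Set Ω} {g k : Perm Ω} (hg : SuppIn S g) (hk : SuppIn S k) :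
    SuppIn S (g * k) := by
  intro x hx
  rw [Perm.mul_apply, hk x hx, hg x hx]

lemma SuppIn.mem_iff {S : Set Ω} {g : Perm Ω} (h : SuppIn S g) {x : Ω} : g x ∈ S ↔ x ∈ S := by
  constructor
  · intro hx
    have := h.inv.mem hx
    rwa [inv_app] at this
  · exact h.mem

/-- Conjugating a permutation supported in `S` by `g` only depends on `g` on `S`. -/
lemma conj_eq_of_agree {S : Set Ω} {v g s : Perm Ω} (hv : SuppIn S v)
    (h : ∀ x ∈ S, g x = s x) : g * v * g⁻¹ = s * v * s⁻¹ := by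
  have hk : ∀ x ∈ S, (s⁻¹ * g) x = x := by
    intro x hx
    rw [Perm.mul_apply, h x hx, inv_app]
  have hcomm : (s⁻¹ * g) * v = v * (s⁻¹ * g) := by
    ext x
    by_cases hx : x ∈ S
    · rw [Perm.mul_apply, hk _ (hv.mem hx), Perm.mul_apply, hk x hx]
    · have h1 : (s⁻¹ * g) x ∉ S := by
        intro hc
        have := hk _ hc
        exact hx ((s⁻¹ * g).injective this ▸ hc)
      rw [Perm.mul_apply (s⁻¹ * g) v x, hv x hx, Perm.mul_apply v (s⁻¹ * g) x, hv _ h1]
  have h2 : g = s * (s⁻¹ * g) := by group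
  calc g * v * g⁻¹ = s * ((s⁻¹ * g) * v) * g⁻¹ := by group
    _ = s * (v * (s⁻¹ * g)) * g⁻¹ := by rw [hcomm]
    _ = s * v * s⁻¹ := by group

/-- Support of a conjugate. -/
lemma SuppIn.conj {S T : Set Ω} {v g : Perm Ω} (hv : SuppIn S v) (h : ∀ x ∈ S, g x ∈ T) :
    SuppIn T (g * v * g⁻¹) := by
  intro x hx
  have : g⁻¹ x ∉ S := fun hc => hx (by have := h _ hc; rwa [app_inv] at this)
  rw [Perm.mul_apply, Perm.mul_apply, hv _ this, app_inv]

/-- Gluing permutations supported in the fibers of `d`. -/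
lemma exists_glue {ι : Type*} (d : Ω → ι) (s : ι → Perm Ω)
    (h : ∀ i, SuppIn {x | d x = i} (s i)) : ∃ g : Perm Ω, ∀ x, g x = s (d x) x := by
  have h1 : ∀ i x, d x = i → d (s i x) = i := fun i x hx => (h i).mem (x := x) hx
  have h2 : ∀ i x, d x = i → d ((s i)⁻¹ x) = i := fun i x hx => (h i).inv.mem (x := x) hx
  refine ⟨⟨fun x => s (d x) x, fun x => (s (d x))⁻¹ x, ?_, ?_⟩, fun x => rfl⟩
  · intro x
    simp only
    rw [h1 (d x) x rfl, inv_app]
  · intro x
    simp only
    rw [h2 (d x) x rfl, app_inv]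

/-- Matching two labelings with infinite fibers. -/
lemma exists_match [Countable Ω] {ι : Type*} (d e : Ω → ι) (hd : ∀ i, {x | d x = i}.Infinite)
    (he : ∀ i, {x | e x = i}.Infinite) : ∃ g : Perm Ω, ∀ x, e (g x) = d x := by
  have : ∀ i, Nonempty ({x // d x = i} ≃ {x // e x = i}) := by
    intro i
    have h1 : Infinite {x // d x = i} := (hd i).to_subtype
    have h2 : Infinite {x // e x = i} := (he i).to_subtype
    exact nonempty_equiv_of_countable
  have f : ∀ i, ({x // d x = i} ≃ {x // e x = i}) := fun i => (this i).some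
  refine ⟨(Equiv.sigmaFiberEquiv d).symm.trans
    ((Equiv.sigmaCongrRight f).trans (Equiv.sigmaFiberEquiv e)), ?_⟩
  intro x
  exact ((f (d x)) ⟨x, rfl⟩).2

/-- Any two moieties are conjugate. -/
lemma exists_moiety_map [Countable Ω] {S T : Set Ω} (hS : S.Infinite) (hS' : Sᶜ.Infinite)
    (hT : T.Infinite) (hT' : Tᶜ.Infinite) : ∃ g : Perm Ω, ∀ x, g x ∈ T ↔ x ∈ S := by
  obtain ⟨g, hg⟩ := exists_match (fun x => x ∈ S) (fun x => x ∈ T)
    (fun i => by
      by_cases hi : i
      · simpa [hi] using hS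
      · simpa [hi, Set.compl_def] using hS')
    (fun i => by
      by_cases hi : i
      · simpa [hi] using hT
      · simpa [hi, Set.compl_def] using hT')
  exact ⟨g, fun x => by rw [hg x]⟩

/-- Extending an injection with infinite complements to a permutation (whole type). -/
lemma exists_extend_univ [Countable Ω] (X : Set Ω) (j : Ω → Ω) (hj : InjOn j X)
    (hX : Xᶜ.Infinite) (hjX : (j '' X)ᶜ.Infinite) : ∃ h : Perm Ω, ∀ x ∈ X, h x = j x := by
  classical
  have h1 : Infinite ↥Xᶜ := hX.to_subtype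
  have h2 : Infinite ↥(j '' X)ᶜ := hjX.to_subtype
  obtain ⟨f⟩ := nonempty_equiv_of_countable (α := ↥Xᶜ) (β := ↥(j '' X)ᶜ)
  let e : X ≃ ↥(j '' X) := Equiv.Set.imageOfInjOn j X hj
  refine ⟨Equiv.subtypeCongr (p := fun x => x ∈ X) (q := fun x => x ∈ j '' X) e f, ?_⟩
  intro x hx
  simp only [Equiv.subtypeCongr, Equiv.trans_apply]
  rw [Equiv.sumCompl_symm_apply_of_pos (p := fun x => x ∈ X) hx]
  simp [e, Equiv.Set.imageOfInjOn]

/-- Extending an injection with infinite complements to a permutation supported in `S`. -/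
lemma exists_extend [Countable Ω] {S X : Set Ω} (hXS : X ⊆ S) (j : Ω → Ω) (hj : InjOn j X)
    (hjS : ∀ x ∈ X, j x ∈ S) (hX : (S \ X).Infinite) (hjX : (S \ (j '' X)).Infinite) :
    ∃ h : Perm Ω, SuppIn S h ∧ ∀ x ∈ X, h x = j x := by
  classical
  let X' : Set S := {x | (x : Ω) ∈ X}
  let j' : S → S := fun x => if hx : (x : Ω) ∈ X then ⟨j x, hjS x hx⟩ else x
  have hj'1 : ∀ x : S, (x : Ω) ∈ X → ((j' x : S) : Ω) = j x := by
    intro x hx
    simp [j', hx]
  obtain ⟨h, hh⟩ := exists_extend_univ X' j' (by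
      intro x hx y hy hxy
      have := congrArg Subtype.val hxy
      rw [hj'1 x hx, hj'1 y hy] at this
      exact Subtype.ext (hj hx hy this))
    (by
      apply Set.Infinite.of_image Subtype.val
      refine hX.mono ?_
      intro x hx
      exact ⟨⟨x, hx.1⟩, hx.2, rfl⟩)
    (by
      apply Set.Infinite.of_image Subtype.val
      refine hjX.mono ?_
      intro x hx
      refine ⟨⟨x, hx.1⟩, ?_, rfl⟩
      rintro ⟨y, hy, hyx⟩
      have := congrArg Subtype.val hyx
      rw [hj'1 y hy] at this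
      exact hx.2 ⟨y, hy, this⟩)
  refine ⟨Perm.ofSubtype h, ?_, ?_⟩
  · intro x hx
    exact Perm.ofSubtype_apply_of_not_mem h hx
  · intro x hx
    have := Perm.ofSubtype_apply_of_mem h (hXS hx)
    rw [this, hh ⟨x, hXS hx⟩ hx, hj'1 ⟨x, hXS hx⟩ hx]

/-- Partition (part of) an infinite set into infinitely many infinite sets. -/
lemma exists_partition {S : Set Ω} (hS : S.Infinite) :
    ∃ d : Ω → ℕ, (∀ j, {x | d x = j}.Infinite) ∧ (∀ x, d x ≠ 0 → x ∈ S) ∧
      ∀ j, {x | x ∈ S ∧ d x = j}.Infinite := by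
  classical
  let f : ℕ ↪ S := hS.natEmbedding S
  let F : ℕ → Ω := fun n => (f n : Ω)
  have hF : Function.Injective F := fun a b hab => f.injective (Subtype.ext hab)
  let d : Ω → ℕ := fun x => if h : ∃ n, F n = x then (Nat.unpair h.choose).1 else 0
  have hd : ∀ n, d (F n) = (Nat.unpair n).1 := by
    intro n
    have h : ∃ m, F m = F n := ⟨n, rfl⟩
    have h2 : h.choose = n := hF h.choose_spec
    simp only [d]
    rw [dif_pos h, h2]
  have key : ∀ j, {x | x ∈ S ∧ d x = j}.Infinite := by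
    intro j
    have h1 : (Set.range fun k => F (Nat.pair j k)).Infinite := by
      apply Set.infinite_range_of_injective
      intro a b hab
      have := hF hab
      rw [Nat.pair_eq_pair] at this
      exact this.2
    refine h1.mono ?_
    rintro _ ⟨k, rfl⟩
    refine ⟨(f _).2, ?_⟩
    simp [hd]
  refine ⟨d, fun j => (key j).mono fun x hx => hx.2, ?_, key⟩
  intro x hx
  by_contra hc
  apply hx
  have : ¬ ∃ n, F n = x := by
    rintro ⟨n, rfl⟩
    exact hc (f n).2
  simp only [d]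
  rw [dif_neg this]

/-- Splitting an infinite set into two infinite parts. -/
lemma exists_split {S : Set Ω} (hS : S.Infinite) :
    ∃ A B : Set Ω, A.Infinite ∧ B.Infinite ∧ Disjoint A B ∧ A ⊆ S ∧ B ⊆ S := by
  obtain ⟨d, -, -, h3⟩ := exists_partition hS
  refine ⟨{x | x ∈ S ∧ d x = 0}, {x | x ∈ S ∧ d x = 1}, h3 0, h3 1, ?_, fun x hx => hx.1,
    fun x hx => hx.1⟩
  rw [Set.disjoint_left]
  rintro x ⟨_, h0⟩ ⟨_, h1⟩
  omega

end Pool.Agent.Lib_MP_8d0ff6_al
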