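import Pool.Agent.Lib_MP_8d0ff6_al.Comb

namespace Pool.Agent.Lib_MP_8d0ff6_al

open Equiv Set

variable {Ω : Type*}

/-- Building a sequence step by step, each step depending on the whole history. -/
lemma exists_seq_strong {α : Type*} [Nonempty α] (R : ℕ → (ℕ → α) → Prop)
    (hcongr : ∀ n f g, (∀ m, m ≤ n → f m = g m) → R n f → R n g)
    (hex : ∀ n f, (∀ m, m < n → R m f) → ∃ a, R n (Function.update f n a)) :
    ∃ f, ∀ n, R n f := by
  classical
  let step : (n : ℕ) → {f : ℕ → α // ∀ m, m < n → R m f} → {f : ℕ → α // ∀ m, m < n + 1 → R m f} :=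
    fun n f => ⟨Function.update f.1 n (hex n f.1 f.2).choose, by
      intro m hm
      rcases Nat.lt_succ_iff_lt_or_eq.1 hm with h | h
      · refine hcongr m f.1 _ ?_ (f.2 m h)
        intro k hk
        rw [Function.update_of_ne (by omega)]
      · subst h
        exact (hex m f.1 f.2).choose_spec⟩
  let g : (n : ℕ) → {f : ℕ → α // ∀ m, m < n → R m f} := fun n =>
    Nat.rec ⟨fun _ => Classical.arbitrary α, fun m hm => absurd hm (Nat.not_lt_zero m)⟩ step n
  have hg : ∀ n m, m < n → (g (n + 1)).1 m = (g n).1 m := by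
    intro n m hm
    change (step n (g n)).1 m = (g n).1 m
    simp only [step]
    rw [Function.update_of_ne (by omega)]
  have hg2 : ∀ m k, (g (m + 1 + k)).1 m = (g (m + 1)).1 m := by
    intro m k
    induction k with
    | zero => rfl
    | succ k ih =>
      rw [← ih]
      exact hg (m + 1 + k) m (by omega)
  refine ⟨fun m => (g (m + 1)).1 m, fun n => ?_⟩
  refine hcongr n (g (n + 1)).1 _ ?_ ((g (n + 1)).2 n (by omega))
  intro m hm
  obtain ⟨k, rfl⟩ := Nat.exists_eq_add_of_le hm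
  have h1 := hg2 m k
  have h2 : m + k + 1 = m + 1 + k := by omega
  rw [h2]
  exact h1

/-- The set of points mentioned before stage `n`. -/
def used (n : ℕ) (g : ℕ → Perm Ω × Ω × Ω) : Set Ω :=
  ⋃ m ∈ {m : ℕ | m < n}, ({(g m).2.1, (g m).2.2} ∪ ⋃ i ∈ {i : ℕ | i ≤ m}, {(g i).1 (g m).2.1})

lemma used_finite (n : ℕ) (g : ℕ → Perm Ω × Ω × Ω) : (used n g).Finite := by
  refine (Set.finite_lt_nat n).biUnion fun m _ => ?_
  refine Set.Finite.union (by simp) ?_
  exact (Set.finite_le_nat m).biUnion fun i _ => Set.finite_singleton _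

lemma used_congr (n : ℕ) (f g : ℕ → Perm Ω × Ω × Ω) (h : ∀ m, m < n → f m = g m) :
    used n f = used n g := by
  unfold used
  apply Set.iUnion₂_congr
  intro m hm
  have hm' : m < n := hm
  rw [h m hm']
  congr 1
  apply Set.iUnion₂_congr
  intro i hi
  have hi' : i ≤ m := hi
  rw [h i (by omega)]

/-- The requirement at stage `n`. -/
def Req (U : ℕ → Set (Perm Ω)) (n : ℕ) (g : ℕ → Perm Ω × Ω × Ω) : Prop :=
  ((g n).1 ∈ U n ∧ {x | (g n).1 x ≠ x}.Infinite ∧ ∀ x ∈ used n g, (g n).1 x = x) ∧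
  ((g n).2.1 ∉ used n g ∧ (g (Nat.unpair n).1).1 (g n).2.1 ≠ (g n).2.1 ∧
    ∀ i, i ≤ n → (g i).1 (g n).2.1 ∉ used n g) ∧
  ((g n).2.2 ∉ used n g ∧ (g n).2.2 ≠ (g n).2.1 ∧ ∀ i, i ≤ n → (g n).2.2 ≠ (g i).1 (g n).2.1)

lemma Req_congr (U : ℕ → Set (Perm Ω)) (n : ℕ) (f g : ℕ → Perm Ω × Ω × Ω)
    (h : ∀ m, m ≤ n → f m = g m) (hf : Req U n f) : Req U n g := by
  unfold Req at *
  rw [← used_congr n f g (fun m hm => h m hm.le)]
  rw [← h n le_rfl, ← h _ (Nat.unpair_left_le n)]
  refine ⟨hf.1, ⟨hf.2.1.1, hf.2.1.2.1, ?_⟩, hf.2.2.1, hf.2.2.2.1, ?_⟩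
  · intro i hi
    rw [← h i hi]
    exact hf.2.1.2.2 i hi
  · intro i hi
    rw [← h i hi]
    exact hf.2.2.2.2 i hi

lemma exists_Req [Infinite Ω] (U : ℕ → Set (Perm Ω))
    (hU : ∀ k, ∀ F : Set Ω, F.Finite → ∃ u ∈ U k, (∀ x ∈ F, u x = x) ∧ {x | u x ≠ x}.Infinite) :
    ∃ f, ∀ n, Req U n f := by
  classical
  apply exists_seq_strong
  · exact Req_congr U
  · intro n f hf
    obtain ⟨u, huU, huF, huinf⟩ := hU n (used n f) (used_finite n f)
    -- the permutations up to stage `n`
    let w : ℕ → Perm Ω := fun i => if i < n then (f i).1 else u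
    have hwinf : {x | w (Nat.unpair n).1 x ≠ x}.Infinite := by
      by_cases h : (Nat.unpair n).1 < n
      · simp only [w, h, if_true]
        exact (hf _ h).1.2.1
      · simp only [w, h, if_false]
        exact huinf
    obtain ⟨t, ht1, ht2⟩ := hwinf.exists_notMem_finite
      ((used_finite n f).union ((Set.finite_le_nat n).biUnion
        (t := fun i => (w i) ⁻¹' (used n f))
        fun i _ => (used_finite n f).preimage (w i).injective.injOn))
    obtain ⟨z, hz⟩ := ((used_finite n f).union ((Set.finite_singleton t).union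
      ((Set.finite_le_nat n).biUnion (t := fun i => {w i t})
        fun i _ => Set.finite_singleton _))).exists_notMem
    refine ⟨(u, t, z), ?_⟩
    set g := Function.update f n (u, t, z) with hg
    have hgn : g n = (u, t, z) := Function.update_self ..
    have hused : used n g = used n f :=
      used_congr n g f (fun m hm => Function.update_of_ne (by omega) _ _)
    have hgw : ∀ i, i ≤ n → (g i).1 = w i := by
      intro i hi
      rcases lt_or_eq_of_le hi with h | h
      · rw [hg, Function.update_of_ne (by omega)]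
        simp [w, h]
      · subst h
        rw [hgn]
        simp [w]
    simp only [mem_union, mem_iUnion, mem_preimage, mem_singleton_iff, not_or, not_exists,
      Set.mem_ofPred_eq] at ht1 ht2 hz
    unfold Req
    rw [hused, hgn]
    refine ⟨⟨huU, huinf, huF⟩, ⟨ht2.1, ?_, ?_⟩, hz.1, hz.2.1, ?_⟩
    · rw [hgw _ (Nat.unpair_left_le n)]
      exact ht1
    · intro i hi
      rw [hgw i hi]
      exact ht2.2 i hi
    · intro i hi
      rw [hgw i hi]
      exact hz.2.2 i hi

/-- The diagonal construction of Step 2. -/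
lemma exists_diag [Infinite Ω] (U : ℕ → Set (Perm Ω))
    (hU : ∀ k, ∀ F : Set Ω, F.Finite → ∃ u ∈ U k, (∀ x ∈ F, u x = x) ∧ {x | u x ≠ x}.Infinite) :
    ∃ T Z : Set Ω, T.Infinite ∧ Z.Infinite ∧ (∀ t ∈ T, t ∉ Z) ∧
      ∀ k, ∃ u ∈ U k, (∀ t ∈ T, u t ∉ Z) ∧ {t | t ∈ T ∧ u t ∉ T}.Infinite := by
  obtain ⟨f, hf⟩ := exists_Req U hU
  -- notation
  set u : ℕ → Perm Ω := fun n => (f n).1 with hu
  set t : ℕ → Ω := fun n => (f n).2.1 with ht
  set z : ℕ → Ω := fun n => (f n).2.2 with hz
  have mem_t : ∀ m n, m < n → t m ∈ used n f := by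
    intro m n hmn
    refine Set.mem_biUnion (x := m) hmn (Or.inl (by simp [ht]))
  have mem_z : ∀ m n, m < n → z m ∈ used n f := by
    intro m n hmn
    refine Set.mem_biUnion (x := m) hmn (Or.inl (by simp [hz]))
  have mem_u : ∀ i m n, i ≤ m → m < n → u i (t m) ∈ used n f := by
    intro i m n him hmn
    refine Set.mem_biUnion (x := m) hmn (Or.inr ?_)
    exact Set.mem_biUnion (x := i) him rfl
  have tz : ∀ n m, t n ≠ z m := by
    intro n m h
    rcases lt_trichotomy m n with hmn | hmn | hmn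
    · exact (hf n).2.1.1 (by have := mem_z m n hmn; rwa [← h] at this)
    · subst hmn
      exact (hf m).2.2.2.1 h.symm
    · exact (hf m).2.2.1 (by have := mem_t n m hmn; rwa [h] at this)
  have uz : ∀ i n m, u i (t n) ≠ z m := by
    intro i n m h
    by_cases hin : i ≤ n
    · rcases lt_trichotomy m n with hmn | hmn | hmn
      · exact (hf n).2.1.2.2 i hin (by have := mem_z m n hmn; rwa [← h] at this)
      · subst hmn
        exact (hf m).2.2.2.2 i hin h.symm
      · exact (hf m).2.2.1 (by have := mem_u i n m hin hmn; rwa [h] at this)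
    · have h1 : u i (t n) = t n := (hf i).1.2.2 _ (mem_t n i (by omega))
      rw [h1] at h
      exact tz n m h
  have tinj : Function.Injective t := by
    intro m n h
    by_contra hne
    rcases lt_or_gt_of_ne hne with h1 | h1
    · exact (hf n).2.1.1 (by have := mem_t m n h1; rwa [h] at this)
    · exact (hf m).2.1.1 (by have := mem_t n m h1; rwa [← h] at this)
  have zinj : Function.Injective z := by
    intro m n h
    by_contra hne
    rcases lt_or_gt_of_ne hne with h1 | h1
    · exact (hf n).2.2.1 (by have := mem_z m n h1; rwa [h] at this)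
    · exact (hf m).2.2.1 (by have := mem_z n m h1; rwa [← h] at this)
  refine ⟨range t, range z, infinite_range_of_injective tinj, infinite_range_of_injective zinj,
    ?_, fun k => ⟨u k, (hf k).1.1, ?_, ?_⟩⟩
  · rintro _ ⟨n, rfl⟩ ⟨m, hm⟩
    exact tz n m hm.symm
  · rintro _ ⟨n, rfl⟩ ⟨m, hm⟩
    exact uz k n m hm.symm
  · have h1 : (range fun j => t (Nat.pair k j)).Infinite := by
      apply infinite_range_of_injective
      intro a b hab
      have := tinj hab
      rw [Nat.pair_eq_pair] at this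
      exact this.2
    refine h1.mono ?_
    rintro _ ⟨j, rfl⟩
    refine ⟨⟨_, rfl⟩, ?_⟩
    rintro ⟨m, hm⟩
    set n := Nat.pair k j with hn
    have hun : (Nat.unpair n).1 = k := by rw [hn, Nat.unpair_pair]
    have hkn : k ≤ n := Nat.left_le_pair k j
    rcases lt_trichotomy m n with hmn | hmn | hmn
    · exact (hf n).2.1.2.2 k hkn (by have := mem_t m n hmn; rwa [hm] at this)
    · have := (hf n).2.1.2.1
      rw [hun] at this
      rw [hmn] at hm
      exact this hm.symm
    · exact (hf m).2.1.1 (by have := mem_u k n m hkn hmn; rwa [← hm] at this)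

/-- The finitary diagonal construction (Step 6). -/
lemma exists_diag_fin [Countable Ω] [Infinite Ω] (Bad : ℕ → Perm Ω → Perm Ω → Prop)
    (hBad : ∀ k, ∀ F : Set Ω, F.Finite → ∃ s u, (∀ x ∈ F, s x = x) ∧ (∀ x ∈ F, u x = x) ∧
      {x | u x ≠ x}.Finite ∧ Bad k s u) :
    ∃ g : Perm Ω, ∀ k, ∃ k', k ≤ k' ∧ ∃ s u, Bad k' s u ∧ ∀ x, u x ≠ x → g x = s x := by
  classical
  -- the touched points of a stage
  let pts : ℕ × Perm Ω × Perm Ω × Ω → Set Ω := fun a =>
    {x | a.2.2.1 x ≠ x} ∪ (a.2.1 '' {x | a.2.2.1 x ≠ x}) ∪ {a.2.2.2}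
  obtain ⟨f, hP, hr⟩ := exists_seq_of_forall_finset_exists
    (α := ℕ × Perm Ω × Perm Ω × Ω)
    (fun a => {x | a.2.2.1 x ≠ x}.Finite ∧ Bad a.1 a.2.1 a.2.2.1 ∧
      a.2.2.2 ∉ {x | a.2.2.1 x ≠ x} ∪ (a.2.1 '' {x | a.2.2.1 x ≠ x}))
    (fun a b => a.1 < b.1 ∧ (∀ x ∈ pts a, b.2.1 x = x) ∧ (∀ x ∈ pts a, b.2.2.1 x = x) ∧
      b.2.2.2 ∉ pts a) (by
      intro s hs
      have hfin : (⋃ a ∈ s, pts a).Finite := by
        refine Set.Finite.biUnion s.finite_toSet fun a ha => ?_
        exact ((hs a ha).1.union ((hs a ha).1.image _)).union (Set.finite_singleton _)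
      obtain ⟨σ, u, h1, h2, h3, h4⟩ := hBad (s.sup (fun a => a.1) + 1) _ hfin
      obtain ⟨p, hp⟩ := (hfin.union (h3.union (h3.image σ))).exists_notMem
      rw [mem_union, not_or] at hp
      refine ⟨(s.sup (fun a => a.1) + 1, σ, u, p), ⟨h3, h4, hp.2⟩, ?_⟩
      intro a ha
      have hsub : pts a ⊆ ⋃ a ∈ s, pts a := Set.subset_biUnion_of_mem (u := pts) ha
      refine ⟨?_, fun x hx => h1 x (hsub hx), fun x hx => h2 x (hsub hx), fun hx => hp.1 (hsub hx)⟩
      exact Nat.lt_succ_of_le (Finset.le_sup (f := fun a : ℕ × Perm Ω × Perm Ω × Ω => a.1) ha))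
  let s : ℕ → Perm Ω := fun n => (f n).2.1
  let u : ℕ → Perm Ω := fun n => (f n).2.2.1
  let p : ℕ → Ω := fun n => (f n).2.2.2
  -- basic facts
  have suppdisj : ∀ m n x, m ≠ n → u m x ≠ x → u n x = x := by
    intro m n x hmn hx
    rcases lt_or_gt_of_ne hmn with h | h
    · exact (hr m n h).2.2.1 x (Or.inl (Or.inl hx))
    · by_contra hc
      exact hx ((hr n m h).2.2.1 x (Or.inl (Or.inl hc)))
  let X : Set Ω := {x | ∃ n, u n x ≠ x}
  let j : Ω → Ω := fun x => if h : ∃ n, u n x ≠ x then s h.choose x else x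
  have hj : ∀ n x, u n x ≠ x → j x = s n x := by
    intro n x hx
    have h : ∃ n, u n x ≠ x := ⟨n, hx⟩
    have h2 : h.choose = n := by
      by_contra hne
      exact h.choose_spec (suppdisj n _ x (fun h => hne h.symm) hx)
    simp only [j]
    rw [dif_pos h, h2]
  have himg : ∀ m n x y, m < n → u m x ≠ x → u n y ≠ y → s n y ≠ s m x := by
    intro m n x y hmn hx hy h
    have h1 : s n (s m x) = s m x := (hr m n hmn).2.1 _ (Or.inl (Or.inr ⟨x, hx, rfl⟩))
    have h2 : y = s m x := (s n).injective (h.trans h1.symm)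
    have h3 : u n (s m x) = s m x := (hr m n hmn).2.2.1 _ (Or.inl (Or.inr ⟨x, hx, rfl⟩))
    exact hy (by rw [h2]; exact h3)
  have hinj : InjOn j X := by
    rintro x ⟨m, hx⟩ y ⟨n, hy⟩ hxy
    rw [hj m x hx, hj n y hy] at hxy
    rcases lt_trichotomy m n with h | h | h
    · exact absurd hxy.symm (himg m n x y h hx hy)
    · subst h
      exact (s m).injective hxy
    · exact absurd hxy (himg n m y x h hy hx)
  have hpX : ∀ k n, u n (p k) = p k := by
    intro k n
    rcases lt_trichotomy k n with h | h | h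
    · exact (hr k n h).2.2.1 _ (Or.inr rfl)
    · subst h
      by_contra hc
      exact (hP k).2.2 (Or.inl hc)
    · by_contra hc
      exact (hr n k h).2.2.2 (Or.inl (Or.inl hc))
  have hpj : ∀ k n x, u n x ≠ x → s n x ≠ p k := by
    intro k n x hx h
    rcases lt_trichotomy k n with hkn | hkn | hkn
    · have h1 : s n (p k) = p k := (hr k n hkn).2.1 _ (Or.inr rfl)
      have h2 : x = p k := (s n).injective (h.trans h1.symm)
      exact hx (by rw [h2]; exact hpX k n)
    · subst hkn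
      exact (hP k).2.2 (Or.inr ⟨x, hx, h⟩)
    · exact (hr n k hkn).2.2.2 (Or.inl (Or.inr ⟨x, hx, h⟩))
  have hpinj : Function.Injective p := by
    intro a b hab
    by_contra hne
    rcases lt_or_gt_of_ne hne with h | h
    · exact (hr a b h).2.2.2 (Or.inr hab.symm)
    · exact (hr b a h).2.2.2 (Or.inr hab)
  obtain ⟨g, hg⟩ := exists_extend_univ X j hinj
    ((infinite_range_of_injective hpinj).mono (by
      rintro _ ⟨k, rfl⟩ ⟨n, hn⟩
      exact hn (hpX k n)))
    ((infinite_range_of_injective hpinj).mono (by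
      rintro _ ⟨k, rfl⟩ ⟨x, ⟨n, hn⟩, hx⟩
      rw [hj n x hn] at hx
      exact hpj k n x hn hx))
  have hmono : ∀ n, n ≤ (f n).1 := by
    intro n
    induction n with
    | zero => exact Nat.zero_le _
    | succ n ih => exact lt_of_le_of_lt ih (hr n (n + 1) (Nat.lt_succ_self n)).1
  refine ⟨g, fun k => ⟨(f k).1, hmono k, s k, u k, (hP k).2.1, ?_⟩⟩
  intro x hx
  rw [hg x ⟨k, hx⟩, hj k x hx]

end Pool.Agent.Lib_MP_8d0ff6_al
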