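import Pool.Agent.Lib_MP_8d0ff6_al.Top
import Pool.Agent.Lib_MP_8d0ff6_al.Alt

namespace Pool.Agent.Lib_MP_8d0ff6_al

open Equiv Set Filter Topology Pointwise

set_option linter.unusedSectionVars false

variable {Ω : Type*} [Infinite Ω]

/-- Finite injections inside an infinite set extend to permutations of that set. -/
lemma exists_extend_finite [Countable Ω] {S X : Set Ω} (hS : S.Infinite) (hX : X.Finite)
    (hXS : X ⊆ S) (j : Ω → Ω) (hj : InjOn j X) (hjS : ∀ x ∈ X, j x ∈ S) :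
    ∃ h : Perm Ω, SuppIn S h ∧ ∀ x ∈ X, h x = j x :=
  exists_extend hXS j hj hjS (hS.sdiff hX) (hS.sdiff (hX.image j))

variable [TopologicalSpace (Perm Ω)] [IsTopologicalGroup (Perm Ω)]

/-- Step 6. -/
lemma step6 [Countable Ω] [T2Space (Perm Ω)] [FirstCountableTopology (Perm Ω)]
    (hF : {g : Perm Ω | {x | g x ≠ x}.Finite} ∈ 𝓝 (1 : Perm Ω))
    {V : Set (Perm Ω)} (hV : V ∈ 𝓝 (1 : Perm Ω)) :
    ∃ W ∈ 𝓝 (1 : Perm Ω), ∃ F : Set Ω, F.Finite ∧ ∀ s, SuppIn Fᶜ s → ∀ u ∈ W, SuppIn Fᶜ u →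
      s * u * s⁻¹ ∈ V := by
  obtain ⟨U, hU⟩ := (𝓝 (1 : Perm Ω)).exists_antitone_basis
  by_contra hcon
  push Not at hcon
  obtain ⟨g, hg⟩ := exists_diag_fin (Ω := Ω) (fun k s u => u ∈ U k ∧ s * u * s⁻¹ ∉ V) (by
    intro k F hFin
    obtain ⟨s, hs, u, hu, huF, hbad⟩ := hcon (U k ∩ {g : Perm Ω | {x | g x ≠ x}.Finite})
      (inter_mem (hU.1.mem_of_mem trivial) hF) F hFin
    exact ⟨s, u, fun x hx => hs x (by simpa using hx), fun x hx => huF x (by simpa using hx),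
      hu.2, hu.1, hbad⟩)
  obtain ⟨m, -, hm⟩ := hU.1.mem_iff.1 (eventually_conj hV g)
  obtain ⟨k', hk', s, u, ⟨huU, hbad⟩, hagree⟩ := hg m
  have h1 : g * u * g⁻¹ ∈ V := hm (hU.antitone hk' huU)
  apply hbad
  rw [← conj_eq_of_agree (S := {x | u x ≠ x}) (v := u) (g := g) (s := s)
    (fun x hx => by simpa using hx) (fun x hx => hagree x hx)]
  exact h1

/-- Step 7: 3-cycles off a finite set are small. -/
lemma step7 [Countable Ω] [DecidableEq Ω] [T2Space (Perm Ω)] [FirstCountableTopology (Perm Ω)]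
    (hF : {g : Perm Ω | {x | g x ≠ x}.Finite} ∈ 𝓝 (1 : Perm Ω))
    (hd : ({1} : Set (Perm Ω)) ∉ 𝓝 (1 : Perm Ω))
    {V : Set (Perm Ω)} (hV : V ∈ 𝓝 (1 : Perm Ω)) :
    ∃ F : Set Ω, F.Finite ∧ ∀ t, IsCyc Fᶜ t → t ∈ V := by
  obtain ⟨V', hV', hV'inv, hV'4⟩ := exists_fourth hV
  obtain ⟨W, hW, F, hFfin, hWF⟩ := step6 hF hV'
  have hWinv : {g : Perm Ω | g⁻¹ ∈ W} ∈ 𝓝 (1 : Perm Ω) := inv_mem_nhds_one (Perm Ω) hW
  have hN := inter_mem (inter_mem hW hWinv) (inter_mem hF (eventually_fix_finite hFfin))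
  obtain ⟨u, ⟨⟨hu1, hu2⟩, hu3, hu4⟩, hune⟩ : ∃ u ∈ (W ∩ {g : Perm Ω | g⁻¹ ∈ W}) ∩
      ({g : Perm Ω | {x | g x ≠ x}.Finite} ∩ {g : Perm Ω | ∀ x ∈ F, g x = x}), u ≠ 1 := by
    by_contra hc
    push Not at hc
    exact hd (Filter.mem_of_superset hN fun u hu => hc u hu)
  have hu3' : {x | u x ≠ x}.Finite := hu3
  have hu4' : ∀ x ∈ F, u x = x := hu4
  have huF : SuppIn Fᶜ u := fun x hx => hu4' x (by simpa using hx)
  obtain ⟨x, hx⟩ : ∃ x, u x ≠ x := by
    by_contra hc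
    push Not at hc
    exact hune (Equiv.ext hc)
  set y := u x with hy
  have hxF : x ∉ F := fun h => hx (hu4' x h)
  have hyF : y ∉ F := fun h => hx (u.injective (hu4' y h))
  obtain ⟨z, hz⟩ := (hFfin.union (hu3'.union (Set.toFinite ({x, y} : Set Ω)))).exists_notMem
  obtain ⟨w, hw⟩ := (hFfin.union (hu3'.union (Set.toFinite ({x, y, z} : Set Ω)))).exists_notMem
  simp only [mem_union, mem_insert_iff, mem_singleton_iff, not_or, Set.mem_ofPred_eq,
    not_not] at hz hw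
  refine ⟨F, hFfin, ?_⟩
  rintro t ⟨a, b, c, ha, hb, hc, hab, hbc, hac, rfl⟩
  have hxz : x ≠ z := fun h => hz.2.2.1 h.symm
  have hyz : y ≠ z := fun h => hz.2.2.2 h.symm
  have hxw : x ≠ w := fun h => hw.2.2.1 h.symm
  have hyw : y ≠ w := fun h => hw.2.2.2.1 h.symm
  have hzw : z ≠ w := fun h => hw.2.2.2.2 h.symm
  have hxy : x ≠ y := fun h => hx h.symm
  -- `h` carries `x, z, y` to `a, b, c`
  obtain ⟨j, jx, jz, jy⟩ : ∃ j : Ω → Ω, j x = a ∧ j z = b ∧ j y = c :=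
    ⟨fun p => if p = x then a else if p = z then b else c, by simp, by simp [hxz.symm],
      by simp [hxy.symm, hyz]⟩
  obtain ⟨h, hhF, hh⟩ := exists_extend_finite (S := Fᶜ) (X := {x, z, y}) hFfin.infinite_compl
    (Set.toFinite _) (by
      intro p hp
      simp only [mem_insert_iff, mem_singleton_iff] at hp
      rcases hp with hp | hp | hp
      · rw [hp]; exact hxF
      · rw [hp]; exact hz.1
      · rw [hp]; exact hyF)
    j (by
      intro p hp q hq hpq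
      simp only [mem_insert_iff, mem_singleton_iff] at hp hq
      rcases hp with hp | hp | hp <;> rcases hq with hq | hq | hq <;> rw [hp, hq] at hpq ⊢
      · rw [jx, jz] at hpq; exact absurd hpq hab
      · rw [jx, jy] at hpq; exact absurd hpq hac
      · rw [jz, jx] at hpq; exact absurd hpq.symm hab
      · rw [jz, jy] at hpq; exact absurd hpq hbc
      · rw [jy, jx] at hpq; exact absurd hpq.symm hac
      · rw [jy, jz] at hpq; exact absurd hpq.symm hbc)
    (by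
      intro p hp
      simp only [mem_insert_iff, mem_singleton_iff] at hp
      rcases hp with hp | hp | hp
      · rw [hp, jx]; exact ha
      · rw [hp, jz]; exact hb
      · rw [hp, jy]; exact hc)
  have hhx : h x = a := by rw [hh x (by simp), jx]
  have hhz : h z = b := by rw [hh z (by simp), jz]
  have hhy : h y = c := by rw [hh y (by simp), jy]
  set s : Perm Ω := swap x z * swap z w with hs
  have hsF : SuppIn Fᶜ s := by
    intro p hp
    have hp : p ∈ F := by simpa using hp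
    have e1 : p ≠ x := fun e => hxF (e ▸ hp)
    have e2 : p ≠ z := fun e => hz.1 (e ▸ hp)
    have e3 : p ≠ w := fun e => hw.1 (e ▸ hp)
    rw [hs, Perm.mul_apply, swap_apply_of_ne_of_ne e2 e3, swap_apply_of_ne_of_ne e1 e2]
  have hcomm : s * u * s⁻¹ * u⁻¹ = swap x z * swap z y := by
    have e1 : u * s⁻¹ * u⁻¹ = swap z w * swap z y := by
      have e2 : s⁻¹ = swap z w * swap x z := by rw [hs, mul_inv_rev, swap_inv, swap_inv]
      have e3 : u * swap z w * u⁻¹ = swap z w := by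
        rw [Equiv.mul_swap_eq_swap_mul, mul_inv_cancel_right, hz.2.1, hw.2.1]
      have e4 : u * swap x z * u⁻¹ = swap z y := by
        rw [Equiv.mul_swap_eq_swap_mul, mul_inv_cancel_right, hz.2.1, ← hy, swap_comm]
      rw [e2]
      calc u * (swap z w * swap x z) * u⁻¹ = (u * swap z w * u⁻¹) * (u * swap x z * u⁻¹) := by
            group
        _ = _ := by rw [e3, e4]
    calc s * u * s⁻¹ * u⁻¹ = s * (u * s⁻¹ * u⁻¹) := by group
      _ = swap x z * (swap z w * swap z w) * swap z y := by rw [e1, hs]; group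
      _ = _ := by rw [swap_mul_self, mul_one]
  have hfin : swap a b * swap b c = (h * s) * u * (h * s)⁻¹ * (h * u⁻¹ * h⁻¹) := by
    have e1 : h * (swap x z * swap z y) * h⁻¹ = swap a b * swap b c := by
      have e2 : h * swap x z * h⁻¹ = swap a b := by
        rw [Equiv.mul_swap_eq_swap_mul, mul_inv_cancel_right, hhx, hhz]
      have e3 : h * swap z y * h⁻¹ = swap b c := by
        rw [Equiv.mul_swap_eq_swap_mul, mul_inv_cancel_right, hhz, hhy]
      rw [← e2, ← e3]; group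
    rw [← e1, ← hcomm]
    group
  have k1 : (h * s) * u * (h * s)⁻¹ ∈ V' := hWF _ (hhF.mul hsF) u hu1 huF
  have k2 : h * u⁻¹ * h⁻¹ ∈ V' := hWF _ hhF u⁻¹ hu2 huF.inv
  have k3 : (1 : Perm Ω) ∈ V' := mem_of_mem_nhds hV'
  have := hV'4 _ k1 _ k2 _ k3 _ k3
  rw [mul_one, mul_one] at this
  rw [hfin]
  exact this

lemma exists_root : ∀ (n : ℕ) {W : Set (Perm Ω)}, W ∈ 𝓝 (1 : Perm Ω) → ∃ A ∈ 𝓝 (1 : Perm Ω),
    ∀ l : List (Perm Ω), l.length = n → (∀ t ∈ l, t ∈ A) → l.prod ∈ W := by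
  intro n
  induction n with
  | zero =>
    intro W hW
    refine ⟨W, hW, ?_⟩
    intro l hl _
    rw [List.length_eq_zero_iff.1 hl, List.prod_nil]
    exact mem_of_mem_nhds hW
  | succ n ih =>
    intro W hW
    obtain ⟨B, hB, hBinv, hB4⟩ := exists_fourth hW
    obtain ⟨A, hA, hAl⟩ := ih hB
    refine ⟨A ∩ B, inter_mem hA hB, ?_⟩
    intro l hl hlA
    match l, hl, hlA with
    | t :: l, hl, hlA =>
      have h1 : t ∈ B := (hlA t (by simp)).2
      have h2 : l.prod ∈ B := hAl l (by simpa using hl) fun x hx => (hlA x (by simp [hx])).1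
      have h3 : (1 : Perm Ω) ∈ B := mem_of_mem_nhds hB
      have := hB4 _ h1 _ h2 _ h3 _ h3
      rw [mul_one, mul_one] at this
      rw [List.prod_cons]
      exact this

/-- Step 8: even finitary permutations off a finite set are small. -/
lemma step8 [Countable Ω] [DecidableEq Ω] [T2Space (Perm Ω)] [FirstCountableTopology (Perm Ω)]
    (hF : {g : Perm Ω | {x | g x ≠ x}.Finite} ∈ 𝓝 (1 : Perm Ω))
    (hd : ({1} : Set (Perm Ω)) ∉ 𝓝 (1 : Perm Ω))
    {V : Set (Perm Ω)} (hV : V ∈ 𝓝 (1 : Perm Ω)) :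
    ∃ F : Set Ω, F.Finite ∧ ∀ l : List (Perm Ω), (∀ t ∈ l, t.IsSwap) → Even l.length →
      SuppIn Fᶜ l.prod → l.prod ∈ V := by
  obtain ⟨W, hW, F, hFfin, hWF⟩ := step6 hF hV
  refine ⟨F, hFfin, ?_⟩
  intro l0 hl0 heven hsupp
  obtain ⟨l, hl, hlp⟩ := alt_factor F l0 hl0 heven hsupp
  obtain ⟨Y, hY, hYF, hYl⟩ := exists_finite_entries l hl
  obtain ⟨A, hA, hAl⟩ := exists_root l.length hW
  obtain ⟨F', hF'fin, hF'⟩ := step7 hF hd hA
  -- move `Y` off `F'`
  have hinf : (Fᶜ \ F').Infinite := hFfin.infinite_compl.sdiff hF'fin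
  obtain ⟨ι, hι⟩ : ∃ ι : Ω → Ω, Function.Injective ι ∧ ∀ x, ι x ∈ Fᶜ \ F' := by
    have h1 : Infinite ↥(Fᶜ \ F') := hinf.to_subtype
    let k := Infinite.natEmbedding ↥(Fᶜ \ F')
    obtain ⟨c, hc⟩ := exists_injective_nat Ω
    exact ⟨fun x => (k (c x) : Ω), fun x y h => hc (k.injective (Subtype.ext h)),
      fun x => (k (c x)).2⟩
  obtain ⟨h, hhF, hh⟩ := exists_extend_finite (S := Fᶜ) (X := Y) hFfin.infinite_compl hY hYF ι
    hι.1.injOn (fun x _ => (hι.2 x).1)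
  have h1 : (l.map fun t => h * t * h⁻¹).prod ∈ W := by
    apply hAl _ (by simp)
    intro t ht
    obtain ⟨t0, ht0, rfl⟩ := List.mem_map.1 ht
    apply hF'
    exact (hYl t0 ht0).conj h fun x hx => by rw [hh x hx]; exact (hι.2 x).2
  have h2 : (l.map fun t => h * t * h⁻¹).prod = h * l0.prod * h⁻¹ := by
    rw [← hlp]
    exact List.prod_hom l (MulAut.conj h)
  rw [h2] at h1
  have h3 := hWF h⁻¹ hhF.inv _ h1 ((hhF.mul hsupp).mul hhF.inv)
  have h4 : h⁻¹ * (h * l0.prod * h⁻¹) * h⁻¹⁻¹ = l0.prod := by group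
  rwa [h4] at h3

end Pool.Agent.Lib_MP_8d0ff6_al
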