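import Pool.Agent.Lib_MP_8d0ff6_al.Comb

namespace Pool.Agent.Lib_MP_8d0ff6_al

open Equiv Set

variable {Ω : Type*}

/-- A permutation with infinite support moves an infinite set `W ⊆ supp` off itself. -/
lemma exists_seq_moved (v : Perm Ω) (hv : {x | v x ≠ x}.Infinite) :
    ∃ f : ℕ → Ω, Function.Injective f ∧ (∀ n, v (f n) ≠ f n) ∧ ∀ m n, v (f m) ≠ f n := by
  classical
  obtain ⟨f, hP, hr⟩ := exists_seq_of_forall_finset_exists (fun y => v y ≠ y)
    (fun x y => y ≠ x ∧ y ≠ v x ∧ v y ≠ x) (by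
      intro s _
      have hfin : ((s : Set Ω) ∪ (v '' (s : Set Ω)) ∪ (v ⁻¹' (s : Set Ω))).Finite :=
        ((s.finite_toSet).union ((s.finite_toSet).image v)).union
          ((s.finite_toSet).preimage v.injective.injOn)
      obtain ⟨y, hy, hy2⟩ := hv.exists_notMem_finite hfin
      simp only [mem_union, not_or] at hy2
      refine ⟨y, hy, fun x hx => ⟨?_, ?_, ?_⟩⟩
      · rintro rfl
        exact hy2.1.1 hx
      · rintro rfl
        exact hy2.1.2 ⟨x, hx, rfl⟩
      · rintro rfl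
        exact hy2.2 hx)
  refine ⟨f, ?_, hP, ?_⟩
  · intro m n hmn
    by_contra hne
    rcases lt_or_gt_of_ne hne with h | h
    · exact (hr m n h).1 hmn.symm
    · exact (hr n m h).1 hmn
  · intro m n hmn
    rcases lt_trichotomy m n with h | h | h
    · exact (hr m n h).2.1 hmn.symm
    · subst h
      exact hP m hmn
    · exact (hr n m h).2.2 hmn

/-- The permutation `(k,i) ↦ (k, σ i)` for `0 ≤ k`, identity elsewhere. -/
def permA (σ : Perm ℕ) : Perm (ℤ × ℕ) where
  toFun p := if 0 ≤ p.1 then (p.1, σ p.2) else p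
  invFun p := if 0 ≤ p.1 then (p.1, σ.symm p.2) else p
  left_inv p := by
    by_cases h : 0 ≤ p.1 <;> simp [h]
  right_inv p := by
    by_cases h : 0 ≤ p.1 <;> simp [h]

/-- The permutation `(0,i) ↦ (0, σ i)`, identity elsewhere. -/
def permB (σ : Perm ℕ) : Perm (ℤ × ℕ) where
  toFun p := if p.1 = 0 then (p.1, σ p.2) else p
  invFun p := if p.1 = 0 then (p.1, σ.symm p.2) else p
  left_inv p := by
    obtain ⟨k, i⟩ := p
    by_cases h : k = 0 <;> simp [h]
  right_inv p := by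
    obtain ⟨k, i⟩ := p
    by_cases h : k = 0 <;> simp [h]

/-- The shift `(k,i) ↦ (k+1,i)`. -/
def permR : Perm (ℤ × ℕ) where
  toFun p := (p.1 + 1, p.2)
  invFun p := (p.1 - 1, p.2)
  left_inv p := by simp
  right_inv p := by simp

lemma permA_comm (σ : Perm ℕ) : permA σ * permR * (permA σ)⁻¹ * permR⁻¹ = permB σ := by
  have : permA σ * permR = permB σ * permR * permA σ := by
    ext1 ⟨k, i⟩
    simp only [Perm.mul_apply, permA, permB, permR, Equiv.coe_fn_mk]
    by_cases h : 0 ≤ k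
    · have h1 : (0 : ℤ) ≤ k + 1 := by omega
      have h2 : ¬ (k + 1 = 0) := by omega
      simp [h, h1, h2]
    · by_cases h2 : k + 1 = 0
      · simp [h, h2]
      · have h1 : ¬ (0 : ℤ) ≤ k + 1 := by omega
        simp [h, h1, h2]
  rw [this]
  group

/-- The swindle: if `v` has infinite support in `S`, then there is an infinite `T ⊆ S` such that
every permutation supported in `T` is a product of four conjugates of `v` or `v⁻¹` by
permutations supported in `S`. -/
lemma swindle {S : Set Ω} {v : Perm Ω} (hvS : SuppIn S v) (hv : {x | v x ≠ x}.Infinite) :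
    ∃ T : Set Ω, T ⊆ S ∧ T.Infinite ∧ ∀ s, SuppIn T s → ∃ a r : Perm Ω, SuppIn S a ∧ SuppIn S r ∧
      s = (a * v * a⁻¹) * v⁻¹ * (r * v * r⁻¹) * ((r * a) * v⁻¹ * (r * a)⁻¹) := by
  classical
  obtain ⟨f, hfinj, hfmov, hf⟩ := exists_seq_moved v hv
  have e : ℤ × ℕ ≃ ℕ := nonempty_equiv_of_countable.some
  let φ : ℤ × ℕ ↪ Ω := ⟨fun p => f (e p), fun p q h => e.injective (hfinj h)⟩
  have hφS : ∀ p, φ p ∈ S := by
    intro p
    by_contra hc
    exact hfmov _ (hvS _ hc)
  have hφv : ∀ p q, v (φ p) ≠ φ q := fun p q => hf _ _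
  let Φ : Perm (ℤ × ℕ) →* Perm Ω := Perm.viaEmbeddingHom φ
  have hΦ1 : ∀ (w : Perm (ℤ × ℕ)) p, Φ w (φ p) = φ (w p) := fun w p => by
    simp only [Φ, Perm.viaEmbeddingHom_apply]
    exact Perm.viaEmbedding_apply w φ p
  have hΦ2 : ∀ (w : Perm (ℤ × ℕ)), SuppIn (range φ) (Φ w) := fun w x hx => by
    simp only [Φ, Perm.viaEmbeddingHom_apply]
    exact Perm.viaEmbedding_apply_of_notMem w φ x hx
  have hrS : range φ ⊆ S := by
    rintro _ ⟨p, rfl⟩
    exact hφS p
  refine ⟨range fun i : ℕ => φ (0, i), ?_, ?_, ?_⟩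
  · rintro _ ⟨i, rfl⟩
    exact hφS _
  · apply Set.infinite_range_of_injective
    intro i j h
    have := φ.injective h
    simpa using this
  · intro s hs
    -- the permutation of `ℕ` induced by `s`
    have hs1 : ∀ i, ∃ j, s (φ (0, i)) = φ (0, j) := by
      intro i
      obtain ⟨j, hj⟩ := hs.mem ⟨i, rfl⟩
      exact ⟨j, hj.symm⟩
    have hs2 : ∀ i, ∃ j, s⁻¹ (φ (0, i)) = φ (0, j) := by
      intro i
      obtain ⟨j, hj⟩ := hs.inv.mem ⟨i, rfl⟩
      exact ⟨j, hj.symm⟩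
    choose σ hσ using hs1
    choose σ' hσ' using hs2
    have h0 : ∀ i j, φ (0, i) = φ (0, j) → i = j := by
      intro i j h
      have := φ.injective h
      simpa using this
    let τ : Perm ℕ := ⟨σ, σ', fun i => by
      apply h0
      rw [← hσ', ← hσ, inv_app], fun i => by
      apply h0
      rw [← hσ, ← hσ', app_inv]⟩
    have hsB : s = Φ (permB τ) := by
      ext x
      by_cases hx : x ∈ range φ
      · obtain ⟨⟨k, i⟩, rfl⟩ := hx
        rw [hΦ1]
        by_cases hk : k = 0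
        · subst hk
          rw [hσ]
          simp [permB, τ]
        · have hx : φ (k, i) ∉ range fun i : ℕ => φ (0, i) := by
            rintro ⟨j, hj⟩
            have := φ.injective hj
            simp only [Prod.mk.injEq] at this
            exact hk this.1.symm
          rw [hs _ hx]
          simp [permB, hk]
      · rw [hΦ2 _ _ hx, hs]
        rintro ⟨i, rfl⟩
        exact hx ⟨_, rfl⟩
    set a := Φ (permA τ) with ha
    set r := Φ permR with hr
    have hcomm : r * (v * a * v⁻¹) = (v * a * v⁻¹) * r := by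
      have hsup : SuppIn (v '' range φ) (v * a * v⁻¹) :=
        (hΦ2 _).conj fun x hx => ⟨x, hx, rfl⟩
      have hdis : ∀ x, x ∈ v '' range φ → x ∉ range φ := by
        rintro _ ⟨_, ⟨p, rfl⟩, rfl⟩ ⟨q, hq⟩
        exact hφv p q hq.symm
      have hrs : SuppIn (range φ) r := hΦ2 _
      ext x
      by_cases hx : x ∈ v '' range φ
      · have h1 : (v * a * v⁻¹) x ∈ v '' range φ := hsup.mem hx
        rw [Perm.mul_apply r, hrs _ (hdis _ h1), Perm.mul_apply _ r, hrs _ (hdis _ hx)]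
      · rw [Perm.mul_apply r, hsup _ hx, Perm.mul_apply _ r, hsup]
        by_cases hx' : x ∈ range φ
        · intro hc
          exact hdis _ hc (hrs.mem hx')
        · rwa [hrs _ hx']
    refine ⟨a, r, (hΦ2 _).mono hrS, (hΦ2 _).mono hrS, ?_⟩
    have h1 : a * v * a⁻¹ * v⁻¹ * (r * v * r⁻¹) * (r * a * v⁻¹ * (r * a)⁻¹)
        = a * (v * a⁻¹ * v⁻¹) * (r * (v * a * v⁻¹)) * a⁻¹ * r⁻¹ := by group
    rw [h1, hcomm]
    have h2 : a * (v * a⁻¹ * v⁻¹) * (v * a * v⁻¹ * r) * a⁻¹ * r⁻¹ = a * r * a⁻¹ * r⁻¹ := by group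
    rw [h2, hsB, ha, hr, ← permA_comm τ]
    simp only [map_mul, map_inv]

/-- Moving `X` inside `A` into `M` leaving infinite room. -/
lemma exists_push [Countable Ω] {A M X : Set Ω} (hMA : M ⊆ A) (hM : M.Infinite)
    (hX : (A \ X).Infinite) : ∃ h : Perm Ω, SuppIn A h ∧ (∀ x ∈ X ∩ A, h x ∈ M) ∧
      (M \ (h '' X)).Infinite := by
  classical
  obtain ⟨M1, M2, hM1, hM2, hdis, hM1M, hM2M⟩ := exists_split hM
  have hinf : Infinite M1 := hM1.to_subtype
  obtain ⟨ι, hι⟩ : ∃ ι : Ω → Ω, Function.Injective ι ∧ ∀ x, ι x ∈ M1 := by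
    have h1 : Nonempty (ℕ ↪ M1) := ⟨Infinite.natEmbedding M1⟩
    obtain ⟨c, hc⟩ := exists_injective_nat Ω
    obtain ⟨k⟩ := h1
    exact ⟨fun x => (k (c x) : Ω), fun x y h => hc (k.injective (Subtype.ext h)),
      fun x => (k (c x)).2⟩
  obtain ⟨h, hh1, hh2⟩ := exists_extend (S := A) (X := X ∩ A) inter_subset_right ι
    (hι.1.injOn) (fun x _ => hMA (hM1M (hι.2 x)))
    (hX.mono (by
      rintro x ⟨h1, h2⟩
      exact ⟨h1, fun h => h2 h.1⟩))
    (hM2.mono (by
      intro x hx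
      refine ⟨hMA (hM2M hx), ?_⟩
      rintro ⟨y, hy, rfl⟩
      exact Set.disjoint_left.1 hdis (hι.2 y) hx))
  refine ⟨h, hh1, fun x hx => by rw [hh2 x hx]; exact hM1M (hι.2 x), ?_⟩
  refine hM2.mono ?_
  intro x hx
  refine ⟨hM2M hx, ?_⟩
  rintro ⟨y, hy, rfl⟩
  by_cases hyA : y ∈ A
  · rw [hh2 y ⟨hy, hyA⟩] at hx
    exact Set.disjoint_left.1 hdis (hι.2 y) hx
  · rw [hh1 y hyA] at hx
    exact hyA (hMA (hM2M hx))

/-- If `A ∩ B` is infinite, every permutation supported in `A ∪ B` is a product of four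
permutations supported in `B`, `A`, `B`, `A`. -/
lemma factor_union [Countable Ω] {A B : Set Ω} (hAB : (A ∩ B).Infinite) {g : Perm Ω}
    (hg : SuppIn (A ∪ B) g) : ∃ b a b' a' : Perm Ω, SuppIn B b ∧ SuppIn A a ∧ SuppIn B b' ∧
      SuppIn A a' ∧ g = b * a * b' * a' := by
  classical
  -- special case: `A \ g(B \ A)` infinite
  have special : ∀ g : Perm Ω, SuppIn (A ∪ B) g → (A \ (g '' (B \ A))).Infinite →
      ∃ a b a' : Perm Ω, SuppIn A a ∧ SuppIn B b ∧ SuppIn A a' ∧ g = a * b * a' := by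
    intro g hg hinf
    obtain ⟨h1, h1A, h1M, h1inf⟩ := exists_push (A := A) (M := A ∩ B) (X := g '' (B \ A))
      inter_subset_left hAB hinf
    -- `h1 (g x) ∈ B` for `x ∈ B \ A`
    have hB : ∀ x ∈ B \ A, h1 (g x) ∈ B := by
      intro x hx
      by_cases hA : g x ∈ A
      · exact (h1M _ ⟨⟨x, hx, rfl⟩, hA⟩).2
      · rw [h1A _ hA]
        have := hg.mem (x := x) (Or.inr hx.1)
        exact this.resolve_left hA
    obtain ⟨h2, h2B, h2e⟩ := exists_extend (S := B) (X := (h1 * g) '' (B \ A))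
      (by rintro _ ⟨x, hx, rfl⟩; exact hB x hx) (fun y => (h1 * g)⁻¹ y)
      ((h1 * g)⁻¹.injective.injOn)
      (by
        rintro _ ⟨x, hx, rfl⟩
        rw [inv_app]
        exact hx.1)
      (h1inf.mono (by
        rintro x ⟨hx1, hx2⟩
        refine ⟨hx1.2, ?_⟩
        rintro ⟨y, hy, rfl⟩
        exact hx2 ⟨g y, ⟨y, hy, rfl⟩, rfl⟩))
      (hAB.mono (by
        rintro x ⟨hxA, hxB⟩
        refine ⟨hxB, ?_⟩
        rintro ⟨_, ⟨y, hy, rfl⟩, hyx⟩
        simp only [inv_app] at hyx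
        subst hyx
        exact hy.2 hxA))
    refine ⟨h1⁻¹, h2⁻¹, h2 * h1 * g, h1A.inv, h2B.inv, ?_, by group⟩
    intro x hx
    by_cases hxB : x ∈ B
    · have := h2e _ ⟨x, ⟨hxB, hx⟩, rfl⟩
      simp only [inv_app] at this
      exact this
    · have hx' : x ∉ A ∪ B := fun h => h.elim hx hxB
      rw [Perm.mul_apply, Perm.mul_apply, hg x hx', h1A x hx, h2B x hxB]
  by_cases hinf : (A \ (g '' (B \ A))).Infinite
  · obtain ⟨a, b, a', ha, hb, ha', h⟩ := special g hg hinf
    exact ⟨1, a, b, a', SuppIn.one _, ha, hb, ha', by rw [h]; group⟩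
  · -- now `B \ g(B \ A)` is infinite
    have hBinf : (B \ (g '' (B \ A))).Infinite := by
      by_contra hBfin
      rw [Set.not_infinite] at hinf hBfin
      have hfin : ((A ∪ B) \ (g '' (B \ A))).Finite := by
        rw [Set.union_sdiff_distrib]
        exact hinf.union hBfin
      have : (g '' (A ∩ B)).Finite := by
        refine hfin.subset ?_
        rintro _ ⟨x, hx, rfl⟩
        refine ⟨hg.mem (Or.inl hx.1), ?_⟩
        rintro ⟨y, hy, hyx⟩
        have := g.injective hyx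
        subst this
        exact hy.2 hx.1
      exact (hAB.image g.injective.injOn) this
    obtain ⟨h0, h0B, h0M, h0inf⟩ := exists_push (A := B) (M := A ∩ B) (X := g '' (B \ A))
      inter_subset_right hAB hBinf
    have hg' : SuppIn (A ∪ B) (h0 * g) := (h0B.mono subset_union_right).mul hg
    obtain ⟨a, b, a', ha, hb, ha', h⟩ := special (h0 * g) hg' (h0inf.mono (by
      rintro x ⟨hx1, hx2⟩
      refine ⟨hx1.1, ?_⟩
      rintro ⟨y, hy, rfl⟩
      exact hx2 ⟨g y, ⟨y, hy, rfl⟩, rfl⟩))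
    exact ⟨h0⁻¹, a, b, a', h0B.inv, ha, hb, ha', by
      have : g = h0⁻¹ * (h0 * g) := by group
      rw [this, h]; group⟩

end Pool.Agent.Lib_MP_8d0ff6_al
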