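import Pool.Agent.Lib_MP_8d0ff6_al.Swindle
import Pool.Agent.Lib_MP_8d0ff6_al.Diag

namespace Pool.Agent.Lib_MP_8d0ff6_al

open Equiv Set Filter Topology Pointwise

set_option linter.unusedSectionVars false

variable {Ω : Type*} [Infinite Ω]
variable [TopologicalSpace (Perm Ω)] [IsTopologicalGroup (Perm Ω)]

lemma swap_comm_of_ne [DecidableEq Ω] {a b c d : Ω} (h1 : a ≠ c) (h2 : a ≠ d) (h3 : b ≠ c)
    (h4 : b ≠ d) : swap a b * swap c d = swap c d * swap a b := by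
  have : (swap a b).Disjoint (swap c d) := by
    intro x
    by_cases ha : x = a
    · subst ha; right; exact swap_apply_of_ne_of_ne h1 h2
    · by_cases hb : x = b
      · subst hb; right; exact swap_apply_of_ne_of_ne h3 h4
      · left; exact swap_apply_of_ne_of_ne ha hb
  exact this.commute.eq

/-- For non-commuting `t, t'`, all `g` near `1` keep `g t g⁻¹` and `t'` non-commuting. -/
lemma eventually_not_comm [T2Space (Perm Ω)] (t t' : Perm Ω) (h : t * t' ≠ t' * t) :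
    ∀ᶠ g in 𝓝 (1 : Perm Ω), (g * t * g⁻¹) * t' ≠ t' * (g * t * g⁻¹) := by
  have ho : IsOpen {g : Perm Ω | (g * t * g⁻¹) * t' ≠ t' * (g * t * g⁻¹)} := by
    apply isOpen_ne_fun <;> fun_prop
  exact ho.mem_nhds (by simpa using h)

/-- Two transpositions sharing exactly one point do not commute. -/
lemma swap_not_comm [DecidableEq Ω] {x y z : Ω} (hxy : x ≠ y) (hxz : x ≠ z) (hyz : y ≠ z) :
    swap x y * swap x z ≠ swap x z * swap x y := by
  intro h
  have := congrArg (fun g : Perm Ω => g x) h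
  simp only [Perm.mul_apply, swap_apply_left] at this
  rw [swap_apply_of_ne_of_ne hxz.symm hyz.symm, swap_apply_of_ne_of_ne hxy.symm hyz] at this
  exact hyz this.symm

lemma eventually_pair [T2Space (Perm Ω)] {x y : Ω} (hxy : x ≠ y) :
    ∀ᶠ g in 𝓝 (1 : Perm Ω), g x = x ∨ g y = x := by
  classical
  -- choose three further points
  obtain ⟨z1, h1⟩ := (Set.toFinite ({x, y} : Set Ω)).exists_notMem
  obtain ⟨z2, h2⟩ := (Set.toFinite ({x, y, z1} : Set Ω)).exists_notMem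
  obtain ⟨z3, h3⟩ := (Set.toFinite ({x, y, z1, z2} : Set Ω)).exists_notMem
  simp only [mem_insert_iff, mem_singleton_iff, not_or] at h1 h2 h3
  have key : ∀ z, z ≠ x → z ≠ y → ∀ᶠ g in 𝓝 (1 : Perm Ω),
      g x = x ∨ g x = z ∨ g y = x ∨ g y = z := by
    intro z hzx hzy
    filter_upwards [eventually_not_comm (swap x y) (swap x z)
      (swap_not_comm hxy hzx.symm hzy.symm)] with g hg
    by_contra hc
    push Not at hc
    apply hg
    have : g * swap x y * g⁻¹ = swap (g x) (g y) := by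
      rw [Equiv.mul_swap_eq_swap_mul, mul_inv_cancel_right]
    rw [this]
    exact swap_comm_of_ne hc.1 hc.2.1 hc.2.2.1 hc.2.2.2
  filter_upwards [key z1 h1.1 h1.2, key z2 h2.1 h2.2.1, key z3 h3.1 h3.2.1] with g e1 e2 e3
  by_contra hc
  push Not at hc
  rcases e1 with e1 | e1 | e1 | e1
  · exact hc.1 e1
  · rcases e2 with e2 | e2 | e2 | e2
    · exact hc.1 e2
    · exact h2.2.2 (by rw [← e2, e1])
    · exact hc.2 e2
    · rcases e3 with e3 | e3 | e3 | e3
      · exact hc.1 e3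
      · exact h3.2.2.1 (by rw [← e3, e1])
      · exact hc.2 e3
      · exact h3.2.2.2 (by rw [← e3, e2])
  · exact hc.2 e1
  · rcases e2 with e2 | e2 | e2 | e2
    · exact hc.1 e2
    · rcases e3 with e3 | e3 | e3 | e3
      · exact hc.1 e3
      · exact h3.2.2.2 (by rw [← e3, e2])
      · exact hc.2 e3
      · exact h3.2.2.1 (by rw [← e3, e1])
    · exact hc.2 e2
    · exact h2.2.2 (by rw [← e2, e1])

/-- Step 0 (Gaughan): point stabilisers are open in every Hausdorff group topology. -/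
lemma eventually_fix [T2Space (Perm Ω)] (x : Ω) : ∀ᶠ g in 𝓝 (1 : Perm Ω), g x = x := by
  obtain ⟨y, h1⟩ := (Set.toFinite ({x} : Set Ω)).exists_notMem
  obtain ⟨y', h2⟩ := (Set.toFinite ({x, y} : Set Ω)).exists_notMem
  simp only [mem_insert_iff, mem_singleton_iff, not_or] at h1 h2
  filter_upwards [eventually_pair (x := x) (y := y) (fun h => h1 h.symm),
    eventually_pair (x := x) (y := y') (fun h => h2.1 h.symm)] with g e1 e2
  rcases e1 with e1 | e1
  · exact e1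
  · rcases e2 with e2 | e2
    · exact e2
    · exact absurd (g.injective (e2.trans e1.symm)) h2.2

lemma eventually_fix_finite [T2Space (Perm Ω)] {F : Set Ω} (hF : F.Finite) :
    ∀ᶠ g in 𝓝 (1 : Perm Ω), ∀ x ∈ F, g x = x :=
  (hF.eventually_all).2 fun x _ => eventually_fix x

/-- Continuity of conjugation at `1`. -/
lemma eventually_conj {V : Set (Perm Ω)} (hV : V ∈ 𝓝 (1 : Perm Ω)) (g : Perm Ω) :
    ∀ᶠ w in 𝓝 (1 : Perm Ω), g * w * g⁻¹ ∈ V := by
  have : Tendsto (fun w : Perm Ω => g * w * g⁻¹) (𝓝 1) (𝓝 1) := by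
    have h : Continuous (fun w : Perm Ω => g * w * g⁻¹) := by fun_prop
    simpa using h.tendsto 1
  exact this hV

/-- Small symmetric fourth roots of neighbourhoods. -/
lemma exists_fourth {V : Set (Perm Ω)} (hV : V ∈ 𝓝 (1 : Perm Ω)) :
    ∃ W ∈ 𝓝 (1 : Perm Ω), (∀ g ∈ W, g⁻¹ ∈ W) ∧
      ∀ a ∈ W, ∀ b ∈ W, ∀ c ∈ W, ∀ d ∈ W, a * b * c * d ∈ V := by
  have h : Tendsto (fun p : Perm Ω × Perm Ω × Perm Ω × Perm Ω => p.1 * p.2.1 * p.2.2.1 * p.2.2.2)
      (𝓝 (1, 1, 1, 1)) (𝓝 1) := by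
    have hc : Continuous (fun p : Perm Ω × Perm Ω × Perm Ω × Perm Ω =>
      p.1 * p.2.1 * p.2.2.1 * p.2.2.2) := by fun_prop
    simpa using hc.tendsto (1, 1, 1, 1)
  have h2 := h hV
  rw [nhds_prod_eq, nhds_prod_eq, nhds_prod_eq, Filter.mem_map] at h2
  obtain ⟨A, hA, B, hB, hAB⟩ := Filter.mem_prod_iff.1 h2
  obtain ⟨C, hC, D, hD, hCD⟩ := Filter.mem_prod_iff.1 hB
  obtain ⟨E, hE, E', hE', hEE⟩ := Filter.mem_prod_iff.1 hD
  set W0 := A ∩ C ∩ E ∩ E' with hW0
  have hW0n : W0 ∈ 𝓝 (1 : Perm Ω) := inter_mem (inter_mem (inter_mem hA hC) hE) hE'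
  refine ⟨W0 ∩ W0⁻¹, inter_mem hW0n (by simpa using inv_mem_nhds_one (Perm Ω) hW0n), ?_, ?_⟩
  · rintro g ⟨h1, h2⟩
    exact ⟨h2, by simpa using h1⟩
  · rintro a ⟨ha, -⟩ b ⟨hb, -⟩ c ⟨hc, -⟩ d ⟨hd, -⟩
    have : (a, b, c, d) ∈ A ×ˢ B := by
      refine ⟨ha.1.1.1, hCD ?_⟩
      exact ⟨hb.1.1.2, hEE ⟨hc.1.2, hd.2⟩⟩
    exact hAB this

/-- Step 1: gluing. -/
lemma step1 [FirstCountableTopology (Perm Ω)] {V : Set (Perm Ω)} (hV : V ∈ 𝓝 (1 : Perm Ω))
    {S : Set Ω} (hS : S.Infinite) :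
    ∃ S' : Set Ω, S' ⊆ S ∧ S'.Infinite ∧ S'ᶜ.Infinite ∧ ∃ W ∈ 𝓝 (1 : Perm Ω),
      ∀ v ∈ W, SuppIn S' v → ∀ s, SuppIn S' s → s * v * s⁻¹ ∈ V := by
  obtain ⟨U, hU⟩ := (𝓝 (1 : Perm Ω)).exists_antitone_basis
  obtain ⟨d, hd, hdS, -⟩ := exists_partition hS
  by_contra hcon
  push Not at hcon
  have hb : ∀ j : ℕ, ∃ v s : Perm Ω, v ∈ U j ∧ SuppIn {x | d x = j + 1} v ∧
      SuppIn {x | d x = j + 1} s ∧ s * v * s⁻¹ ∉ V := by
    intro j
    obtain ⟨v, hv, hv1, s, hs, hs1⟩ := hcon {x | d x = j + 1}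
      (fun x hx => hdS x (by have : d x = j + 1 := hx; omega)) (hd (j + 1))
      ((hd 0).mono fun x hx hx' => by
        have h1 : d x = 0 := hx
        have h2 : d x = j + 1 := hx'
        omega) (U j) (hU.1.mem_of_mem trivial)
    exact ⟨v, s, hv, hv1, hs, hs1⟩
  choose v s hvU hvS hsS hbad using hb
  obtain ⟨g, hg⟩ := exists_glue d (fun i => match i with | 0 => 1 | j + 1 => s j) (by
    intro i
    match i with
    | 0 => exact SuppIn.one _
    | j + 1 => exact hsS j)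
  have hgV := eventually_conj hV g
  obtain ⟨m, -, hm⟩ := hU.1.mem_iff.1 hgV
  apply hbad m
  have := hm (hvU m)
  rw [← conj_eq_of_agree (hvS m) (g := g) (s := s m)]
  · exact this
  · intro x hx
    have hx' : d x = m + 1 := hx
    rw [hg x, hx']

/-- Step 2: if the finitary group is not open, every neighbourhood of `1` contains elements of
infinite support supported in any prescribed moiety. -/
lemma step2 [Countable Ω] [T2Space (Perm Ω)] [FirstCountableTopology (Perm Ω)]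
    (hF : {g : Perm Ω | {x | g x ≠ x}.Finite} ∉ 𝓝 (1 : Perm Ω))
    {V : Set (Perm Ω)} (hV : V ∈ 𝓝 (1 : Perm Ω)) {S : Set Ω} (hS : S.Infinite)
    (hS' : Sᶜ.Infinite) : ∃ v ∈ V, SuppIn S v ∧ {x | v x ≠ x}.Infinite := by
  classical
  obtain ⟨U, hU⟩ := (𝓝 (1 : Perm Ω)).exists_antitone_basis
  have hinf : ∀ W ∈ 𝓝 (1 : Perm Ω), ∃ u ∈ W, {x | u x ≠ x}.Infinite := by
    intro W hW
    by_contra hc
    push Not at hc
    exact hF (Filter.mem_of_superset hW fun u hu => hc u hu)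
  obtain ⟨T, Z, hT, hZ, hTZ, huk⟩ := exists_diag U (by
    intro k F hFin
    obtain ⟨u, ⟨hu1, hu2⟩, hu3⟩ := hinf (U k ∩ {g | ∀ x ∈ F, g x = x})
      (inter_mem (hU.1.mem_of_mem trivial) (eventually_fix_finite hFin))
    exact ⟨u, hu1, hu2, hu3⟩)
  -- a permutation `s` with support exactly `T`
  obtain ⟨s, hsT, hs⟩ : ∃ s : Perm Ω, SuppIn T s ∧ ∀ x ∈ T, s x ≠ x := by
    have : Infinite T := hT.to_subtype
    obtain ⟨e⟩ := nonempty_equiv_of_countable (α := ℤ) (β := T)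
    let σ : Perm T := e.permCongr (Equiv.addRight 1)
    refine ⟨Perm.ofSubtype σ, fun x hx => Perm.ofSubtype_apply_of_not_mem σ hx, ?_⟩
    intro x hx h
    rw [Perm.ofSubtype_apply_of_mem σ hx] at h
    have h2 : σ ⟨x, hx⟩ = ⟨x, hx⟩ := Subtype.ext h
    simp only [σ, Equiv.permCongr_apply, Equiv.coe_addRight] at h2
    have h3 := congrArg e.symm h2
    simp at h3
  -- transport to `S`
  obtain ⟨g, hg⟩ := exists_moiety_map (S := Zᶜ) (T := S)
    (hT.mono fun x hx => hTZ x hx) (by rwa [compl_compl]) hS hS'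
  obtain ⟨W, hW, hWinv, hW4⟩ := exists_fourth (eventually_conj hV g)
  have hsW : ∀ᶠ w in 𝓝 (1 : Perm Ω), s * w * s⁻¹ ∈ W := eventually_conj hW s
  obtain ⟨k, -, hk⟩ := hU.1.mem_iff.1 (inter_mem hsW hW)
  obtain ⟨u, huU, huZ, huinf⟩ := huk k
  have h1 : s * u * s⁻¹ ∈ W := (hk huU).1
  have h2 : u⁻¹ ∈ W := hWinv _ (hk huU).2
  have h3 : (1 : Perm Ω) ∈ W := mem_of_mem_nhds hW
  have h4 := hW4 _ h1 _ h2 _ h3 _ h3
  rw [mul_one, mul_one] at h4
  set c := s * u * s⁻¹ * u⁻¹ with hc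
  have hcZ : SuppIn Zᶜ c := by
    intro z hz
    have hz : z ∈ Z := by simpa using hz
    have e1 : u⁻¹ z ∉ T := fun h => huZ _ h (by rwa [app_inv])
    have e2 : z ∉ T := fun h => hTZ _ h hz
    rw [hc, Perm.mul_apply, Perm.mul_apply, Perm.mul_apply, hsT.inv _ e1, app_inv, hsT _ e2]
  have hcinf : {x | c x ≠ x}.Infinite := by
    refine (huinf.image u.injective.injOn).mono ?_
    rintro _ ⟨t, ⟨htT, htu⟩, rfl⟩ hcon
    rw [hc, Perm.mul_apply, Perm.mul_apply, Perm.mul_apply, inv_app] at hcon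
    have e1 : s (u (s⁻¹ t)) = s (u t) := by rw [hcon, hsT _ htu]
    have e2 := u.injective (s.injective e1)
    have e3 : s t = t := by
      have := congrArg s e2
      rw [app_inv] at this
      exact this.symm
    exact hs t htT e3
  refine ⟨g * c * g⁻¹, h4, hcZ.conj fun x hx => (hg x).2 hx, ?_⟩
  refine (hcinf.image g.injective.injOn).mono ?_
  rintro _ ⟨x, hx, rfl⟩ hcon
  rw [Perm.mul_apply, Perm.mul_apply, inv_app] at hcon
  exact hx (g.injective hcon)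

/-- Step 3. -/
lemma step3 [Countable Ω] [T2Space (Perm Ω)] [FirstCountableTopology (Perm Ω)]
    (hF : {g : Perm Ω | {x | g x ≠ x}.Finite} ∉ 𝓝 (1 : Perm Ω))
    {V : Set (Perm Ω)} (hV : V ∈ 𝓝 (1 : Perm Ω)) {S : Set Ω} (hS : S.Infinite) :
    ∃ T : Set Ω, T ⊆ S ∧ T.Infinite ∧ ∀ s, SuppIn T s → s ∈ V := by
  obtain ⟨V', hV', hV'inv, hV'4⟩ := exists_fourth hV
  obtain ⟨S', hS'S, hS', hS'c, W, hW, hWV⟩ := step1 hV' hS
  have hWinv : {g : Perm Ω | g⁻¹ ∈ W} ∈ 𝓝 (1 : Perm Ω) := inv_mem_nhds_one (Perm Ω) hW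
  obtain ⟨v, ⟨hv1, hv2⟩, hvS, hvinf⟩ := step2 hF (inter_mem hW hWinv) hS' hS'c
  obtain ⟨T, hTS, hT, hsw⟩ := swindle hvS hvinf
  refine ⟨T, hTS.trans hS'S, hT, ?_⟩
  intro s hs
  obtain ⟨a, r, ha, hr, hsar⟩ := hsw s hs
  rw [hsar]
  have e1 := hWV v hv1 hvS a ha
  have e2 := hWV v⁻¹ hv2 hvS.inv 1 (SuppIn.one _)
  have e3 := hWV v hv1 hvS r hr
  have e4 := hWV v⁻¹ hv2 hvS.inv (r * a) (hr.mul ha)
  rw [one_mul, inv_one, mul_one] at e2
  exact hV'4 _ e1 _ e2 _ e3 _ e4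

/-- Step 4: if the finitary group is not open, the topology is coarser than pointwise
convergence. -/
lemma step4 [Countable Ω] [T2Space (Perm Ω)] [FirstCountableTopology (Perm Ω)]
    (hF : {g : Perm Ω | {x | g x ≠ x}.Finite} ∉ 𝓝 (1 : Perm Ω))
    {V : Set (Perm Ω)} (hV : V ∈ 𝓝 (1 : Perm Ω)) :
    ∃ F : Set Ω, F.Finite ∧ ∀ s, SuppIn Fᶜ s → s ∈ V := by
  classical
  obtain ⟨U, hU⟩ := (𝓝 (1 : Perm Ω)).exists_antitone_basis
  obtain ⟨V', hV', hV'inv, hV'4⟩ := exists_fourth hV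
  -- an infinite, coinfinite `T` with `Sym T ⊆ V'`
  obtain ⟨A0, B0, hA0, hB0, hdis0, -, -⟩ := exists_split (Set.infinite_univ (α := Ω))
  obtain ⟨T, hTA, hT, hTV⟩ := step3 hF hV' hA0
  have hTc : Tᶜ.Infinite := hB0.mono fun x hx hxT => Set.disjoint_left.1 hdis0 (hTA hxT) hx
  obtain ⟨enc, henc⟩ := exists_injective_nat Ω
  -- a decreasing sequence
  have hstep : ∀ m : ℕ, ∀ A : Set Ω, A.Infinite → ∃ B : Set Ω, B.Infinite ∧ B ⊆ A ∧
      (A \ B).Infinite ∧ (∀ x ∈ B, enc x ≠ m) ∧ ∀ s, SuppIn B s → s ∈ U m := by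
    intro m A hA
    obtain ⟨A1, B1, hA1, hB1, hdis1, hA1A, hB1A⟩ := exists_split hA
    have hfin : {x : Ω | enc x = m}.Finite := by
      apply Set.Subsingleton.finite
      intro x hx y hy
      exact henc (hx.trans hy.symm)
    have hA2 : (A1 \ {x : Ω | enc x = m}).Infinite := hA1.sdiff hfin
    obtain ⟨B, hBA, hB, hBU⟩ := step3 hF (hU.1.mem_of_mem (i := m) trivial) hA2
    refine ⟨B, hB, fun x hx => hA1A (hBA hx).1, ?_, fun x hx => (hBA hx).2, hBU⟩
    refine hB1.mono fun x hx => ⟨hB1A hx, fun hxB => ?_⟩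
    exact Set.disjoint_left.1 hdis1 (hBA hxB).1 hx
  choose! nxt hn1 hn2 hn3 hn4 hn5 using hstep
  let D : ℕ → Set Ω := fun n => Nat.rec Set.univ (fun m A => nxt m A) n
  have hDs : ∀ n, D (n + 1) = nxt n (D n) := fun n => rfl
  have hDinf : ∀ n, (D n).Infinite := by
    intro n
    induction n with
    | zero => exact Set.infinite_univ
    | succ n ih => rw [hDs]; exact hn1 n _ ih
  have hDanti : ∀ m n, m ≤ n → D n ⊆ D m := by
    intro m n hmn
    induction n, hmn using Nat.le_induction with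
    | base => exact subset_rfl
    | succ n _ ih => exact (hn2 n _ (hDinf n)).trans ih
  have hDne : ∀ x, ∃ n, x ∉ D (n + 1) := by
    intro x
    refine ⟨enc x, fun hx => ?_⟩
    exact hn4 _ _ (hDinf _) x hx rfl
  let d : Ω → ℕ := fun x => Nat.find (hDne x)
  have hd1 : ∀ x m, m < d x → x ∈ D (m + 1) := by
    intro x m hm
    by_contra hc
    exact Nat.find_min (hDne x) hm hc
  have hd2 : ∀ x m, x ∈ D (m + 1) → m < d x := by
    intro x m hx
    by_contra hc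
    exact Nat.find_spec (hDne x) (hDanti (Nat.find (hDne x) + 1) (m + 1) (by
      have : d x ≤ m := not_lt.1 hc
      have h2 : Nat.find (hDne x) ≤ m := this
      omega) hx)
  have hd : ∀ j, {x | d x = j}.Infinite := by
    intro j
    refine (hn3 j _ (hDinf j)).mono ?_
    rintro x ⟨hx1, hx2⟩
    have h1 : d x ≤ j := Nat.find_min' (hDne x) hx2
    have h2 : j ≤ d x := by
      rcases Nat.eq_zero_or_pos j with h | h
      · omega
      · obtain ⟨k, rfl⟩ := Nat.exists_eq_succ_of_ne_zero h.ne'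
        exact hd2 x k hx1
    exact le_antisymm h1 h2
  -- the target labeling
  obtain ⟨d', -, -, hd'⟩ := exists_partition hT
  let e : Ω → ℕ := fun x => if x ∈ T then d' x else enc x
  have heT : ∀ j, {x | x ∈ T ∧ e x = j}.Infinite := by
    intro j
    refine (hd' j).mono ?_
    rintro x ⟨hx1, hx2⟩
    refine ⟨hx1, ?_⟩
    simp only [e, hx1, if_true]
    exact hx2
  have he : ∀ j, {x | e x = j}.Infinite := fun j => (heT j).mono fun x hx => hx.2
  obtain ⟨g, hg⟩ := exists_match d e hd he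
  obtain ⟨m, -, hm⟩ := hU.1.mem_iff.1 (eventually_conj hV' g)
  -- `R`
  set R : Set Ω := {x | m < e x} with hR
  have hRV : ∀ s, SuppIn R s → s ∈ V' := by
    intro s hs
    have h1 : SuppIn (D (m + 1)) (g⁻¹ * s * g⁻¹⁻¹) := by
      apply hs.conj
      intro x hx
      apply hd1
      have h2 : d (g⁻¹ x) = e x := by rw [← hg, app_inv]
      rw [h2]
      exact hx
    have h3 : g⁻¹ * s * g⁻¹⁻¹ ∈ U m := hn5 m _ (hDinf m) _ h1
    have h4 := hm h3
    have h5 : g * (g⁻¹ * s * g⁻¹⁻¹) * g⁻¹ = s := by group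
    have h6 : g * (g⁻¹ * s * g⁻¹⁻¹) * g⁻¹ ∈ V' := h4
    rwa [h5] at h6
  have hTR : (T ∩ R).Infinite := by
    refine (heT (m + 1)).mono ?_
    rintro x ⟨hx1, hx2⟩
    exact ⟨hx1, by simp only [hR, Set.mem_ofPred_eq]; omega⟩
  refine ⟨(T ∪ R)ᶜ, ?_, ?_⟩
  · -- finiteness
    have : (T ∪ R)ᶜ ⊆ enc ⁻¹' {n | n ≤ m} := by
      intro x hx
      simp only [mem_compl_iff, mem_union, not_or] at hx
      have hxT := hx.1
      have hxR : ¬ m < e x := hx.2
      simp only [e, hxT, if_false] at hxR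
      simp only [mem_preimage, Set.mem_ofPred_eq]
      omega
    exact ((Set.finite_le_nat m).preimage henc.injOn).subset this
  · intro s hs
    rw [compl_compl] at hs
    obtain ⟨b, a, b', a', hb, ha, hb', ha', h⟩ := factor_union hTR hs
    rw [h]
    exact hV'4 _ (hRV b hb) _ (hTV a ha) _ (hRV b' hb') _ (hTV a' ha')

end Pool.Agent.Lib_MP_8d0ff6_al
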